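import Pool.Agent.H990Z.InjT.Main

open Ordinal Pool.Agent.H990Z.InjT
open scoped ZeroAtInfty

universe u

/-- Negative answer to Q1 and Q2, for every ordinal `α > 0` and every admissible sequence. -/
theorem Pool.Agent.Results.MP_ba88e9_an.Counter.result
    (α : Ordinal.{u}) (hα : 0 < α) (a : ℕ → Ordinal.{u}) (hmono : Monotone a)
    (hlt : ∀ n, a n < ω ^ α) (hsup : ⨆ n, a n = ω ^ α) :
    ∃ (X : Type (u + 1)) (Y : Type) (_ : NormedAddCommGroup X) (_ : NormedSpace ℝ X)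
      (_ : CompleteSpace X) (_ : NormedAddCommGroup Y) (_ : NormedSpace ℝ Y) (_ : CompleteSpace Y),
      EmbedsCompl (COrd (ω ^ ω ^ α)) (InjTensor X Y) ∧
      ¬ Embeds (COrd (ω ^ ω ^ α)) X ∧ ¬ Embeds (COrd (ω ^ ω ^ α)) Y ∧
      ¬ (EmbedsUnif (fun n => COrd (ω ^ a n)) X ∧ Embeds C₀(ℕ, ℝ) Y) ∧
      ¬ (EmbedsUnif (fun n => COrd (ω ^ a n)) Y ∧ Embeds C₀(ℕ, ℝ) X) :=
  counterexample α hα a hmono hlt hsup
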